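import Pool.Agent.helper66.LIN.Spec

/-!
# Project lin, row BBA
-/

set_option autoImplicit false

namespace LSH.Lin

theorem BBA (hOB : OB_stmt) (hGTF : GTF_stmt) : BBA_stmt := by
  intro s t C₁ C₂ x G₁ G₂ hgen h1 h2 hdec P1 B1 P2 hr2
  obtain ⟨ob1, ob2, ob3, ob4⟩ := hOB
  obtain ⟨g1, g2, g3, -⟩ := hGTF
  have hg1 : Gen (C₁ : Set Pt) := fun a ha b hb =>
    hgen a (Set.mem_insert_of_mem _ (Or.inl ha)) b (Set.mem_insert_of_mem _ (Or.inl hb))
  have hg2 : Gen (C₂ : Set Pt) := fun a ha b hb =>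
    hgen a (Set.mem_insert_of_mem _ (Or.inr ha)) b (Set.mem_insert_of_mem _ (Or.inr hb))
  have hr1C : G₁.root ∈ C₁ := P1.pts _ (g1 G₁)
  have hr2C : G₂.root ∈ C₂ := P2.pts _ (g1 G₂)
  obtain ⟨a1, a2⟩ := h1 _ hr1C
  obtain ⟨b1, b2⟩ := h2 _ hr2C
  -- the edges
  have E1 : ∀ e ∈ G₁.edges, ∀ z, e.on z → z.1 < x.1 ∧ x.2 < z.2 := by
    intro e he z hz
    obtain ⟨c1, c2⟩ := g2 G₁ e he
    obtain ⟨d1, d2⟩ := h1 _ (P1.pts _ c1)
    obtain ⟨d3, d4⟩ := h1 _ (P1.pts _ c2)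
    obtain ⟨f1, f2⟩ := ob1 e z hz
    rw [Set.mem_uIcc] at f1 f2
    constructor
    · rcases f1 with f | f <;> linarith
    · rcases f2 with f | f <;> linarith
  have E2 : ∀ e ∈ G₂.edges, ∀ z, e.on z → G₂.root.1 ≤ z.1 ∧ z.2 ≤ G₂.root.2 := by
    intro e he z hz
    obtain ⟨c1, c2⟩ := g2 G₂ e he
    obtain ⟨d1, d2⟩ := hr2 _ c1
    obtain ⟨d3, d4⟩ := hr2 _ c2
    obtain ⟨f1, f2⟩ := ob1 e z hz
    rw [Set.mem_uIcc] at f1 f2
    constructor
    · rcases f1 with f | f <;> linarith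
    · rcases f2 with f | f <;> linarith
  have O1 : ∀ z, (⟨x, G₁.root, true⟩ : Edge).on z → (z.2 = x.2 ∧ G₁.root.1 ≤ z.1 ∧ z.1 ≤ x.1) ∨
      (z.1 = G₁.root.1 ∧ x.2 ≤ z.2 ∧ z.2 ≤ G₁.root.2) := by
    intro z hz
    rcases hz with ⟨-, hz | hz⟩ | ⟨hz, -⟩
    · left
      obtain ⟨e1, e2⟩ := hz
      rw [Set.uIcc_of_ge a1.le] at e2
      exact ⟨e1, e2.1, e2.2⟩
    · right
      obtain ⟨e1, e2⟩ := hz
      rw [Set.uIcc_of_le a2.le] at e2
      exact ⟨e1, e2.1, e2.2⟩
    · exact absurd hz (by simp)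
  have O2 : ∀ z, (⟨x, G₂.root, true⟩ : Edge).on z → (z.2 = x.2 ∧ x.1 ≤ z.1 ∧ z.1 ≤ G₂.root.1) ∨
      (z.1 = G₂.root.1 ∧ G₂.root.2 ≤ z.2 ∧ z.2 ≤ x.2) := by
    intro z hz
    rcases hz with ⟨-, hz | hz⟩ | ⟨hz, -⟩
    · left
      obtain ⟨e1, e2⟩ := hz
      rw [Set.uIcc_of_le b1.le] at e2
      exact ⟨e1, e2.1, e2.2⟩
    · right
      obtain ⟨e1, e2⟩ := hz
      rw [Set.uIcc_of_ge b2.le] at e2
      exact ⟨e1, e2.1, e2.2⟩
    · exact absurd hz (by simp)
  -- the noncrossing pairs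
  have n1 : ((⟨x, G₁.root, true⟩ : Edge) :: G₁.edges).Pairwise NC := by
    rw [List.pairwise_cons]
    refine ⟨fun f hf z hz hz' => ?_, P1.nc⟩
    obtain ⟨c1, c2⟩ := E1 f hf z hz'
    have hz1 : z = G₁.root := by
      rcases O1 z hz with h | h
      · linarith [h.1]
      · exact B1 f hf z hz' h.1 h.2.2
    refine ⟨Or.inr hz1, ?_⟩
    refine ob2 (C₁ : Set Pt) f z hg1 ?_ ?_ ?_ hz'
    · exact P1.pts _ (g2 G₁ f hf).1
    · exact P1.pts _ (g2 G₁ f hf).2
    · rw [hz1]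
      exact hr1C
  have n2 : ((⟨x, G₂.root, true⟩ : Edge) :: G₂.edges).Pairwise NC := by
    rw [List.pairwise_cons]
    refine ⟨fun f hf z hz hz' => ?_, P2.nc⟩
    obtain ⟨c1, c2⟩ := E2 f hf z hz'
    have hz1 : z = G₂.root := by
      rcases O2 z hz with h | h
      · linarith [h.1]
      · exact Prod.ext h.1 (le_antisymm c2 h.2.1)
    refine ⟨Or.inr hz1, ?_⟩
    refine ob2 (C₂ : Set Pt) f z hg2 ?_ ?_ ?_ hz'
    · exact P2.pts _ (g2 G₂ f hf).1
    · exact P2.pts _ (g2 G₂ f hf).2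
    · rw [hz1]
      exact hr2C
  have L1 : ∀ e ∈ ((⟨x, G₁.root, true⟩ : Edge) :: G₁.edges), ∀ z, e.on z → z.1 ≤ x.1 ∧
      (e = ⟨x, G₁.root, true⟩ ∨ z.1 < x.1) := by
    intro e he z hz
    rcases List.mem_cons.1 he with rfl | he
    · refine ⟨?_, Or.inl rfl⟩
      rcases O1 z hz with h | h
      · exact h.2.2
      · linarith [h.1]
    · exact ⟨(E1 e he z hz).1.le, Or.inr (E1 e he z hz).1⟩
  have L2 : ∀ e ∈ ((⟨x, G₂.root, true⟩ : Edge) :: G₂.edges), ∀ z, e.on z → x.1 ≤ z.1 ∧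
      (e = ⟨x, G₂.root, true⟩ ∨ x.1 < z.1) := by
    intro e he z hz
    rcases List.mem_cons.1 he with rfl | he
    · refine ⟨?_, Or.inl rfl⟩
      rcases O2 z hz with h | h
      · exact h.2.1
      · linarith [h.1]
    · have := (E2 e he z hz).1
      exact ⟨by linarith, Or.inr (by linarith)⟩
  have n3 : ∀ e ∈ ((⟨x, G₁.root, true⟩ : Edge) :: G₁.edges),
      ∀ f ∈ ((⟨x, G₂.root, true⟩ : Edge) :: G₂.edges), NC e f := by
    intro e he f hf z hz hz'
    obtain ⟨c1, c2⟩ := L1 e he z hz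
    obtain ⟨d1, d2⟩ := L2 f hf z hz'
    have hx : z.1 = x.1 := le_antisymm c1 d1
    rcases c2 with rfl | c2
    swap
    · linarith
    rcases d2 with rfl | d2
    swap
    · linarith
    have hzx : z = x := by
      rcases O1 z hz with h | h
      · exact Prod.ext hx h.1
      · linarith [h.1]
    exact ⟨Or.inl hzx, Or.inl hzx⟩
  have ncA : (GT.bb x true G₁ true G₂).edges.Pairwise NC := by
    change (((⟨x, G₁.root, true⟩ : Edge) :: G₁.edges) ++
      ((⟨x, G₂.root, true⟩ : Edge) :: G₂.edges)).Pairwise NC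
    rw [List.pairwise_append]
    exact ⟨n1, n2, n3⟩
  have ncB : (GT.bb x true G₂ true G₁).edges.Pairwise NC := by
    change (((⟨x, G₂.root, true⟩ : Edge) :: G₂.edges) ++
      ((⟨x, G₁.root, true⟩ : Edge) :: G₁.edges)).Pairwise NC
    rw [List.pairwise_append]
    exact ⟨n2, n1, fun e he f hf => ob4 _ _ (n3 f hf e he)⟩
  -- the rays
  have ray : ∀ i, (i ∈ G₁.pend ∨ i ∈ G₂.pend) →
      ∀ e, (e ∈ ((⟨x, G₁.root, true⟩ : Edge) :: G₁.edges) ∨
        e ∈ ((⟨x, G₂.root, true⟩ : Edge) :: G₂.edges)) →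
      ∀ z, e.on z → z.2 = i.1.2 → z.1 ≤ i.1.1 := by
    intro i hi e he z hz hzi
    rcases hi with hi | hi
    · have hiC : i.1 ∈ C₁ := P1.pts _ (g3 G₁ i hi)
      obtain ⟨c1, c2⟩ := h1 _ hiC
      rcases he with he | he
      · rcases List.mem_cons.1 he with rfl | he
        · rcases O1 z hz with h | h
          · linarith [h.1]
          · rw [h.1]
            by_contra hlt
            push Not at hlt
            have := hdec _ hiC _ hr1C hlt
            linarith [h.2.2]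
        · exact P1.ray i hi e he z hz hzi
      · exfalso
        rcases List.mem_cons.1 he with rfl | he
        · rcases O2 z hz with h | h
          · linarith [h.1]
          · linarith [h.2.2]
        · linarith [(E2 e he z hz).2]
    · obtain ⟨c1, c2⟩ := hr2 _ (g3 G₂ i hi)
      rcases he with he | he
      · linarith [(L1 e he z hz).1]
      · rcases List.mem_cons.1 he with rfl | he
        · rcases O2 z hz with h | h
          · linarith [h.2.2]
          · linarith [h.1]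
        · exact P2.ray i hi e he z hz hzi
  have bel : ∀ e, (e ∈ ((⟨x, G₁.root, true⟩ : Edge) :: G₁.edges) ∨
        e ∈ ((⟨x, G₂.root, true⟩ : Edge) :: G₂.edges)) →
      ∀ z, e.on z → z.1 = x.1 → z = x := by
    intro e he z hz hx
    rcases he with he | he
    · rcases (L1 e he z hz).2 with rfl | h
      · rcases O1 z hz with h | h
        · exact Prod.ext hx h.1
        · linarith [h.1]
      · linarith
    · rcases (L2 e he z hz).2 with rfl | h
      · rcases O2 z hz with h | h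
        · exact Prod.ext hx h.1
        · linarith [h.1]
      · linarith
  -- the points
  have hx1 : x ∉ G₁.pts := fun h => lt_irrefl _ (h1 _ (P1.pts _ h)).1
  have hx2 : x ∉ G₂.pts := fun h => lt_irrefl _ (h2 _ (P2.pts _ h)).1
  have hdis : ∀ p ∈ G₁.pts, p ∉ G₂.pts := by
    intro p hp hp'
    have := (h1 _ (P1.pts _ hp)).1
    have := (h2 _ (P2.pts _ hp')).1
    linarith
  refine ⟨⟨⟨?_, ?_, ?_, ncA, ?_⟩, ?_⟩, ⟨⟨?_, ?_, ?_, ncB, ?_⟩, ?_⟩⟩
  · change BT.br G₁.shape G₂.shape = BT.br s t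
    rw [P1.shape, P2.shape]
  · intro p hp
    change p ∈ x ::ₘ (G₁.pts + G₂.pts) at hp
    rw [Multiset.mem_cons, Multiset.mem_add] at hp
    rw [Finset.mem_insert, Finset.mem_union]
    rcases hp with hp | hp | hp
    · exact Or.inl hp
    · exact Or.inr (Or.inl (P1.pts _ hp))
    · exact Or.inr (Or.inr (P2.pts _ hp))
  · change (x ::ₘ (G₁.pts + G₂.pts)).Nodup
    rw [Multiset.nodup_cons, Multiset.mem_add, Multiset.nodup_add]
    refine ⟨fun h => h.elim hx1 hx2, P1.nodup, P2.nodup, ?_⟩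
    rw [Multiset.disjoint_left]
    exact fun {p} hp => hdis p hp
  · intro i hi e he
    change i ∈ G₁.pend + G₂.pend at hi
    exact ray i (Multiset.mem_add.1 hi) e (List.mem_append.1 he)
  · intro e he z hz hx _
    exact bel e (List.mem_append.1 he) z hz hx
  · change BT.br G₂.shape G₁.shape = BT.br t s
    rw [P1.shape, P2.shape]
  · intro p hp
    change p ∈ x ::ₘ (G₂.pts + G₁.pts) at hp
    rw [Multiset.mem_cons, Multiset.mem_add] at hp
    rw [Finset.mem_insert, Finset.mem_union]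
    rcases hp with hp | hp | hp
    · exact Or.inl hp
    · exact Or.inr (Or.inr (P2.pts _ hp))
    · exact Or.inr (Or.inl (P1.pts _ hp))
  · change (x ::ₘ (G₂.pts + G₁.pts)).Nodup
    rw [Multiset.nodup_cons, Multiset.mem_add, Multiset.nodup_add]
    refine ⟨fun h => h.elim hx2 hx1, P2.nodup, P1.nodup, ?_⟩
    rw [Multiset.disjoint_left]
    exact fun {p} hp hp' => hdis p hp' hp
  · intro i hi e he
    change i ∈ G₂.pend + G₁.pend at hi
    exact ray i (Multiset.mem_add.1 hi).symm e (List.mem_append.1 he).symm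
  · intro e he z hz hx _
    exact bel e (List.mem_append.1 he).symm z hz hx

end LSH.Lin
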